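import Pool.Agent.Q178.HNH.Inst

set_option autoImplicit false

/-!
Homogeneous non-Hausdorff surfaces all of whose non-separated sets are circles, or all of whose
non-separated sets are lines.
-/

namespace Pool.Agent.Results.MP_43aaf1_gt.CircleLine

open Q178.HNH

/-- There is an HNH-`2`-manifold in which every `NH(z)` is homeomorphic to the circle, and there is
an HNH-`2`-manifold in which every `NH(z)` is homeomorphic to the real line. -/
theorem result :
    (∃ (M : Type) (_ : TopologicalSpace M), IsHNH 2 M ∧ ∀ z : M, Nonempty (NH z ≃ₜ Circle)) ∧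
    (∃ (M : Type) (_ : TopologicalSpace M), IsHNH 2 M ∧ ∀ z : M, Nonempty (NH z ≃ₜ ℝ)) :=
  ⟨circle_case, line_case⟩

end Pool.Agent.Results.MP_43aaf1_gt.CircleLine
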